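import Pool.Agent.BOX.StmtsG

/-!
# Row EVD of squad BOX: bounds and derivative of `ev`
-/

namespace Pool.Agent.BOX.H4

open Set Filter Topology MeasureTheory

lemma norm_exp_I (r : ℝ) : ‖Complex.exp (Complex.I * ((r : ℝ) : ℂ))‖ = 1 := by
  rw [mul_comm, Complex.norm_exp_ofReal_mul_I]

variable {P Q : Type} [AddCommGroup P] [AddCommGroup Q]

omit [AddCommGroup Q] in
lemma sum_w {θ : P →+ ℝ} {w : Q → ℝ} {F : P × Q → ℂ} (hw : ∀ k, 1 ≤ w k)
    (hF : Sm (fun g => (1 + |θ g.1|) * w g.2) F) : Summable fun g : P × Q => ‖F g‖ * w g.2 := by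
  refine Summable.of_nonneg_of_le (fun g => ?_) (fun g => ?_) hF
  · exact mul_nonneg (norm_nonneg _) (zero_le_one.trans (hw _))
  · have h1 : 0 ≤ w g.2 := zero_le_one.trans (hw _)
    have h2 : 0 ≤ |θ g.1| * w g.2 := mul_nonneg (abs_nonneg _) h1
    exact mul_le_mul_of_nonneg_left (by nlinarith) (norm_nonneg _)

omit [AddCommGroup Q] in
lemma sum_th {θ : P →+ ℝ} {w : Q → ℝ} {F : P × Q → ℂ} (hw : ∀ k, 1 ≤ w k)
    (hF : Sm (fun g => (1 + |θ g.1|) * w g.2) F) :
    Summable fun g : P × Q => ‖F g‖ * (1 + |θ g.1|) := by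
  refine Summable.of_nonneg_of_le (fun g => ?_) (fun g => ?_) hF
  · exact mul_nonneg (norm_nonneg _) (by positivity)
  · have h2 : 0 ≤ 1 + |θ g.1| := by positivity
    refine mul_le_mul_of_nonneg_left ?_ (norm_nonneg _)
    nlinarith [hw g.2]

omit [AddCommGroup P] [AddCommGroup Q] in
lemma swp {f : P × Q → ℝ} (h : Summable f) : Summable fun q : Q × P => f (q.2, q.1) :=
  (Equiv.prodComm Q P).summable_iff.mpr h

omit [AddCommGroup P] [AddCommGroup Q] in
lemma fac {f : P × Q → ℝ} (h : Summable f) (k : Q) : Summable fun p : P => f (p, k) :=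
  (swp h).prod_factor k

omit [AddCommGroup P] [AddCommGroup Q] in
lemma fac_norm {F : P × Q → ℂ} (h : Summable fun g => ‖F g‖) (k : Q) :
    Summable fun p : P => ‖F (p, k)‖ := fac h k

omit [AddCommGroup Q] in
lemma cont_ev (θ : P →+ ℝ) {F : P × Q → ℂ} (h : Summable fun g => ‖F g‖) (k : Q) :
    Continuous fun t => ev θ F t k := by
  unfold ev
  refine continuous_tsum (fun p => by fun_prop) (fac_norm h k) fun p t => ?_
  rw [norm_mul, norm_exp_I, mul_one]

/-- EVD. -/
theorem evd : EvdStmt := by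
  intro P Q _ _ θ w F hw hF
  have s1 := sum_w hw hF
  have s2 := sum_th hw hF
  have s0 : Summable fun g : P × Q => ‖F g‖ := by
    refine Summable.of_nonneg_of_le (fun g => norm_nonneg _) (fun g => ?_) s1
    exact le_mul_of_one_le_right (norm_nonneg _) (hw _)
  have s3 : Summable fun g : P × Q => ‖F g‖ * |θ g.1| := by
    refine Summable.of_nonneg_of_le (fun g => by positivity) (fun g => ?_) s2
    exact mul_le_mul_of_nonneg_left (by linarith) (norm_nonneg _)
  have s4 : Summable fun g : P × Q => ‖Complex.I * (θ g.1 : ℂ) * F g‖ := by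
    refine s3.congr fun g => ?_
    rw [norm_mul, norm_mul, Complex.norm_I, one_mul, Complex.norm_real, Real.norm_eq_abs, mul_comm]
  refine ⟨fac_norm s0, ?_, ?_, ?_, cont_ev θ s0, cont_ev θ s4, ?_⟩
  · refine (swp s1).prod.congr fun k => ?_
    exact tsum_mul_right (f := fun p : P => ‖F (p, k)‖) (a := w k)
  · have e1 : ∑' g : P × Q, ‖F g‖ * w g.2 = ∑' q : Q × P, ‖F (q.2, q.1)‖ * w q.1 :=
      ((Equiv.prodComm Q P).tsum_eq (fun g : P × Q => ‖F g‖ * w g.2)).symm
    have e2 : ∑' q : Q × P, ‖F (q.2, q.1)‖ * w q.1 = ∑' k : Q, ∑' p : P, ‖F (p, k)‖ * w k :=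
      (swp s1).tsum_prod
    rw [e1, e2]
    exact tsum_congr fun k => (tsum_mul_right (f := fun p : P => ‖F (p, k)‖) (a := w k)).symm
  · intro t k
    have hs : Summable fun p : P => ‖F (p, k) * Complex.exp (Complex.I * ((θ p * t : ℝ) : ℂ))‖ := by
      refine (fac_norm s0 k).congr fun p => ?_
      rw [norm_mul, norm_exp_I, mul_one]
    refine (norm_tsum_le_tsum_norm hs).trans (le_of_eq (tsum_congr fun p => ?_))
    rw [norm_mul, norm_exp_I, mul_one]
  · intro k t
    have hu : Summable fun p : P => ‖F (p, k)‖ * |θ p| := fac s3 k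
    have hd : ∀ (p : P) (s : ℝ), HasDerivAt
        (fun s : ℝ => F (p, k) * Complex.exp (Complex.I * ((θ p * s : ℝ) : ℂ)))
        (Complex.I * (θ p : ℂ) * F (p, k) * Complex.exp (Complex.I * ((θ p * s : ℝ) : ℂ))) s := by
      intro p s
      have h1 : HasDerivAt (fun s : ℝ => ((θ p * s : ℝ) : ℂ)) (θ p : ℂ) s := by
        have := ((hasDerivAt_id s).const_mul (θ p)).ofReal_comp
        simpa using this
      have h2 := ((h1.const_mul Complex.I).cexp).const_mul (F (p, k))
      refine h2.congr_deriv ?_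
      ring
    have hb : ∀ (p : P) (s : ℝ), ‖Complex.I * (θ p : ℂ) * F (p, k) *
        Complex.exp (Complex.I * ((θ p * s : ℝ) : ℂ))‖ ≤ ‖F (p, k)‖ * |θ p| := by
      intro p s
      rw [norm_mul, norm_exp_I, mul_one, norm_mul, norm_mul, Complex.norm_I, one_mul,
        Complex.norm_real, Real.norm_eq_abs, mul_comm]
    have hs0 : Summable fun p : P => F (p, k) * Complex.exp (Complex.I * ((θ p * (0 : ℝ) : ℝ) : ℂ)) := by
      refine Summable.of_norm ((fac_norm s0 k).congr fun p => ?_)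
      rw [norm_mul, norm_exp_I, mul_one]
    exact hasDerivAt_tsum hu hd hb hs0 t

end Pool.Agent.BOX.H4
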