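import Pool.Agent.BOX.StmtsT

/-!
# Row NRT of squad BOX: lower bound of the divisors, two dimensions
-/

namespace Pool.Agent.BOX.H4

open Set Filter Topology MeasureTheory

lemma frq_two (l : Fin 2 → ℝ) (k : Fin 2 → ℤ) :
    frq l k = Real.sqrt ((Real.pi / l 0) ^ 2 * (k 0 : ℝ) ^ 2 + (Real.pi / l 1) ^ 2 * (k 1 : ℝ) ^ 2) := by
  unfold frq
  rw [Fin.sum_univ_two]
  congr 1
  ring

lemma frq_sq (l : Fin 2 → ℝ) (k : Fin 2 → ℤ) :
    frq l k ^ 2 = (Real.pi / l 0) ^ 2 * (k 0 : ℝ) ^ 2 + (Real.pi / l 1) ^ 2 * (k 1 : ℝ) ^ 2 := by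
  rw [frq_two, Real.sq_sqrt (by positivity)]

lemma frq_nonneg (l : Fin 2 → ℝ) (k : Fin 2 → ℤ) : 0 ≤ frq l k := Real.sqrt_nonneg _

lemma frq_eq (l : Fin 2 → ℝ) (k : Fin 2 → ℤ) {y : ℝ} (hy : 0 ≤ y)
    (h : (Real.pi / l 0) ^ 2 * (k 0 : ℝ) ^ 2 + (Real.pi / l 1) ^ 2 * (k 1 : ℝ) ^ 2 = y ^ 2) :
    frq l k = y := by
  rw [frq_two, h, Real.sqrt_sq hy]

/-- The integer algebra. -/
lemma alg (p q x y : ℤ) (h0 : p ^ 4 + q ^ 4 + x ^ 4 - 2 * p ^ 2 * q ^ 2 - 2 * p ^ 2 * x ^ 2 -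
      2 * q ^ 2 * x ^ 2 = 0)
    (h1 : 2 * p ^ 4 + 8 * q ^ 4 + 2 * x ^ 2 * y ^ 2 - 10 * p ^ 2 * q ^ 2 -
      2 * p ^ 2 * (x ^ 2 + y ^ 2) - 2 * q ^ 2 * (y ^ 2 + 4 * x ^ 2) = 0)
    (h2 : p ^ 4 + 16 * q ^ 4 + y ^ 4 - 8 * p ^ 2 * q ^ 2 - 2 * p ^ 2 * y ^ 2 -
      8 * q ^ 2 * y ^ 2 = 0) :
    (q = 0 ∧ x ^ 2 = p ^ 2 ∧ y ^ 2 = p ^ 2) ∨ (p = 0 ∧ x ^ 2 = q ^ 2 ∧ y ^ 2 = (2 * q) ^ 2) := by
  have e0 : (x ^ 2 - (p + q) ^ 2) * (x ^ 2 - (p - q) ^ 2) = 0 := by linear_combination h0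
  have e2 : (y ^ 2 - (p + 2 * q) ^ 2) * (y ^ 2 - (p - 2 * q) ^ 2) = 0 := by linear_combination h2
  have key : p * q = 0 := by
    have h : (p * q) ^ 2 = 0 := by
      rcases mul_eq_zero.mp e0 with hx | hx <;> rcases mul_eq_zero.mp e2 with hy | hy
      · have hx' : x ^ 2 = (p + q) ^ 2 := by linarith
        have hy' : y ^ 2 = (p + 2 * q) ^ 2 := by linarith
        rw [hx', hy'] at h1
        have : 4 * (p * q) ^ 2 = 0 := by linear_combination -h1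
        linarith
      · have hx' : x ^ 2 = (p + q) ^ 2 := by linarith
        have hy' : y ^ 2 = (p - 2 * q) ^ 2 := by linarith
        rw [hx', hy'] at h1
        have : 36 * (p * q) ^ 2 = 0 := by linear_combination -h1
        linarith
      · have hx' : x ^ 2 = (p - q) ^ 2 := by linarith
        have hy' : y ^ 2 = (p + 2 * q) ^ 2 := by linarith
        rw [hx', hy'] at h1
        have : 36 * (p * q) ^ 2 = 0 := by linear_combination -h1
        linarith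
      · have hx' : x ^ 2 = (p - q) ^ 2 := by linarith
        have hy' : y ^ 2 = (p - 2 * q) ^ 2 := by linarith
        rw [hx', hy'] at h1
        have : 4 * (p * q) ^ 2 = 0 := by linear_combination -h1
        linarith
    exact pow_eq_zero_iff (two_ne_zero) |>.mp h
  rcases mul_eq_zero.mp key with hp | hq
  · right
    subst hp
    refine ⟨rfl, ?_, ?_⟩
    · rcases mul_eq_zero.mp e0 with hx | hx <;> linear_combination hx
    · rcases mul_eq_zero.mp e2 with hx | hx <;> linear_combination hx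
  · left
    subst hq
    refine ⟨rfl, ?_, ?_⟩
    · rcases mul_eq_zero.mp e0 with hx | hx <;> linear_combination hx
    · rcases mul_eq_zero.mp e2 with hx | hx <;> linear_combination hx

lemma abs_sub3 (a b c d e f : ℝ) : |a + b + c - d - e - f| ≤ |a| + |b| + |c| + |d| + |e| + |f| := by
  have h1 := abs_sub (a + b + c - d - e) f
  have h2 := abs_sub (a + b + c - d) e
  have h3 := abs_sub (a + b + c) d
  have h4 := abs_add_three a b c
  linarith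

lemma mono4 {N x y : ℝ} (hx : |x| ≤ N) (hy : |y| ≤ N) : |x ^ 2 * y ^ 2| ≤ N ^ 4 := by
  have h1 : |x| ^ 2 ≤ N ^ 2 := pow_le_pow_left₀ (abs_nonneg _) hx 2
  have h2 : |y| ^ 2 ≤ N ^ 2 := pow_le_pow_left₀ (abs_nonneg _) hy 2
  rw [abs_mul, abs_pow, abs_pow]
  calc |x| ^ 2 * |y| ^ 2 ≤ N ^ 2 * N ^ 2 := mul_le_mul h1 h2 (by positivity) (by positivity)
    _ = N ^ 4 := by ring

/-- NRT. -/
theorem nrt : NrtStmt := by
  intro l hl hdio
  set a : ℝ := (Real.pi / l 0) ^ 2 with ha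
  set b : ℝ := (Real.pi / l 1) ^ 2 with hb
  have hpi : 0 < Real.pi := Real.pi_pos
  have ha0 : 0 < a := by have := hl 0; positivity
  have hb0 : 0 < b := by have := hl 1; positivity
  set ω₁ : ℝ := frq l ![1, 1] with hω₁
  set ω₂ : ℝ := frq l ![1, 2] with hω₂
  have s1 : ω₁ ^ 2 = a + b := by
    rw [hω₁, frq_sq]; simp [ha, hb]
  have s2 : ω₂ ^ 2 = a + 4 * b := by
    rw [hω₂, frq_sq]; simp [ha, hb]; ring
  have n1 : 0 ≤ ω₁ := frq_nonneg _ _
  have n2 : 0 ≤ ω₂ := frq_nonneg _ _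
  have p1 : 0 < ω₁ := by
    rcases n1.lt_or_eq with h | h
    · exact h
    · rw [← h] at s1; nlinarith
  have p2 : 0 < ω₂ := by
    rcases n2.lt_or_eq with h | h
    · exact h
    · rw [← h] at s2; nlinarith
  have hs : b = a * (l 0 / l 1) ^ 2 := by
    have := (hl 0).ne'
    have := (hl 1).ne'
    rw [ha, hb]; field_simp
  have hsg : ∀ g : G2, sg (th2 l) (frq l) g = g.1.1 * ω₁ + g.1.2 * ω₂ - frq l g.2 := fun g => rfl
  have hk : ∀ g : G2, frq l g.2 ^ 2 = a * (g.2 0 : ℝ) ^ 2 + b * (g.2 1 : ℝ) ^ 2 :=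
    fun g => frq_sq l g.2
  constructor
  · obtain ⟨c, hc, τ, hd⟩ := hdio
    set D : ℝ := 2 * ω₁ + ω₂ with hD
    have hD0 : 0 < D := by positivity
    set c' : ℝ := c * a ^ 2 / (100 ^ τ * D ^ 3) with hc'
    have hc'0 : 0 < c' := by positivity
    refine ⟨min c' (min ω₁ ω₂), lt_min hc'0 (lt_min p1 p2), 4 * τ + 3, ?_⟩
    intro g hpar hR hk1
    rw [hsg]
    set p : ℤ := g.1.1 with hp
    set q : ℤ := g.1.2 with hq
    set x : ℤ := g.2 0 with hx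
    set y : ℤ := g.2 1 with hy
    set z : ℝ := frq l g.2 with hz
    have hz2 : z ^ 2 = a * (x : ℝ) ^ 2 + b * (y : ℝ) ^ 2 := hk g
    have hz0 : 0 ≤ z := frq_nonneg _ _
    set N : ℝ := 1 + (nr2 g : ℝ) with hN
    have hnr : (nr2 g : ℝ) = |(p : ℝ)| + |(q : ℝ)| + |(x : ℝ)| + |(y : ℝ)| := by
      unfold nr2
      push_cast [Nat.cast_natAbs]
      rfl
    have hp1 : |(p : ℝ)| ≤ N := by
      rw [hN, hnr]
      linarith [abs_nonneg (p : ℝ), abs_nonneg (q : ℝ), abs_nonneg (x : ℝ), abs_nonneg (y : ℝ)]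
    have hq1 : |(q : ℝ)| ≤ N := by
      rw [hN, hnr]
      linarith [abs_nonneg (p : ℝ), abs_nonneg (q : ℝ), abs_nonneg (x : ℝ), abs_nonneg (y : ℝ)]
    have hx1 : |(x : ℝ)| ≤ N := by
      rw [hN, hnr]
      linarith [abs_nonneg (p : ℝ), abs_nonneg (q : ℝ), abs_nonneg (x : ℝ), abs_nonneg (y : ℝ)]
    have hy1 : |(y : ℝ)| ≤ N := by
      rw [hN, hnr]
      linarith [abs_nonneg (p : ℝ), abs_nonneg (q : ℝ), abs_nonneg (x : ℝ), abs_nonneg (y : ℝ)]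
    have hN1 : 1 ≤ N := by rw [hN]; linarith [(nr2 g).cast_nonneg (α := ℝ)]
    have hNp : 1 ≤ N ^ (4 * τ + 3) := one_le_pow₀ hN1
    by_cases h0 : p ^ 4 + q ^ 4 + x ^ 4 - 2 * p ^ 2 * q ^ 2 - 2 * p ^ 2 * x ^ 2 -
          2 * q ^ 2 * x ^ 2 = 0 ∧ 2 * p ^ 4 + 8 * q ^ 4 + 2 * x ^ 2 * y ^ 2 - 10 * p ^ 2 * q ^ 2 -
          2 * p ^ 2 * (x ^ 2 + y ^ 2) - 2 * q ^ 2 * (y ^ 2 + 4 * x ^ 2) = 0 ∧
          p ^ 4 + 16 * q ^ 4 + y ^ 4 - 8 * p ^ 2 * q ^ 2 - 2 * p ^ 2 * y ^ 2 - 8 * q ^ 2 * y ^ 2 = 0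
    · have hlow : min ω₁ ω₂ ≤ |(p : ℝ) * ω₁ + q * ω₂ - z| := by
        rcases alg p q x y h0.1 h0.2.1 h0.2.2 with ⟨e1, e2, e3⟩ | ⟨e1, e2, e3⟩
        · have hodd : Odd p := by
            have := hpar.1
            rw [← hp, ← hq, e1, add_zero] at this
            exact this
          have hneg : p ≤ -1 := by
            by_contra hcon
            have hpos : 0 < p := by
              rcases hodd with ⟨m, hm⟩
              omega
            refine hR (Or.inl ⟨e1, hpos, hodd, ?_, ?_⟩)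
            · have := abs_eq_abs.mpr (sq_eq_sq_iff_eq_or_eq_neg.mp e2)
              rw [this, abs_of_pos hpos]
            · have := abs_eq_abs.mpr (sq_eq_sq_iff_eq_or_eq_neg.mp e3)
              rw [this, abs_of_pos hpos]
          have hneg' : (p : ℝ) ≤ -1 := by exact_mod_cast hneg
          rw [e1, Int.cast_zero, zero_mul, add_zero]
          refine (min_le_left _ _).trans ?_
          rw [abs_sub_comm]
          refine le_trans ?_ (le_abs_self _)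
          have e5 := mul_le_mul_of_nonneg_right hneg' n1
          linarith
        · have hodd : Odd q := by
            have := hpar.1
            rw [← hp, ← hq, e1, zero_add] at this
            exact this
          have hneg : q ≤ -1 := by
            by_contra hcon
            have hpos : 0 < q := by
              rcases hodd with ⟨m, hm⟩
              omega
            refine hR (Or.inr ⟨e1, hpos, hodd, ?_, ?_⟩)
            · have := abs_eq_abs.mpr (sq_eq_sq_iff_eq_or_eq_neg.mp e2)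
              rw [this, abs_of_pos hpos]
            · have := abs_eq_abs.mpr (sq_eq_sq_iff_eq_or_eq_neg.mp e3)
              rw [this, abs_mul, abs_two, abs_of_pos hpos]
          have hneg' : (q : ℝ) ≤ -1 := by exact_mod_cast hneg
          rw [e1, Int.cast_zero, zero_mul, zero_add]
          refine (min_le_right _ _).trans ?_
          rw [abs_sub_comm]
          refine le_trans ?_ (le_abs_self _)
          have e5 := mul_le_mul_of_nonneg_right hneg' n2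
          linarith
      refine le_trans ?_ ((min_le_right c' (min ω₁ ω₂)).trans hlow)
      exact div_le_self (le_min hc'0.le (le_min n1 n2)) hNp
    · have h0' : ¬((p ^ 4 + q ^ 4 + x ^ 4 - 2 * p ^ 2 * q ^ 2 - 2 * p ^ 2 * x ^ 2 -
          2 * q ^ 2 * x ^ 2) = 0 ∧ (2 * p ^ 4 + 8 * q ^ 4 + 2 * x ^ 2 * y ^ 2 - 10 * p ^ 2 * q ^ 2 -
          2 * p ^ 2 * (x ^ 2 + y ^ 2) - 2 * q ^ 2 * (y ^ 2 + 4 * x ^ 2)) = 0 ∧
          (p ^ 4 + 16 * q ^ 4 + y ^ 4 - 8 * p ^ 2 * q ^ 2 - 2 * p ^ 2 * y ^ 2 -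
            8 * q ^ 2 * y ^ 2) = 0) := h0
      have hdd := hd _ _ _ h0'
      push_cast at hdd
      set M0 : ℝ := (p : ℝ) ^ 4 + (q : ℝ) ^ 4 + (x : ℝ) ^ 4 - 2 * (p : ℝ) ^ 2 * (q : ℝ) ^ 2 -
        2 * (p : ℝ) ^ 2 * (x : ℝ) ^ 2 - 2 * (q : ℝ) ^ 2 * (x : ℝ) ^ 2 with hM0
      set M1 : ℝ := 2 * (p : ℝ) ^ 4 + 8 * (q : ℝ) ^ 4 + 2 * (x : ℝ) ^ 2 * (y : ℝ) ^ 2 -
        10 * (p : ℝ) ^ 2 * (q : ℝ) ^ 2 - 2 * (p : ℝ) ^ 2 * ((x : ℝ) ^ 2 + (y : ℝ) ^ 2) -
        2 * (q : ℝ) ^ 2 * ((y : ℝ) ^ 2 + 4 * (x : ℝ) ^ 2) with hM1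
      set M2 : ℝ := (p : ℝ) ^ 4 + 16 * (q : ℝ) ^ 4 + (y : ℝ) ^ 4 - 8 * (p : ℝ) ^ 2 * (q : ℝ) ^ 2 -
        2 * (p : ℝ) ^ 2 * (y : ℝ) ^ 2 - 8 * (q : ℝ) ^ 2 * (y : ℝ) ^ 2 with hM2
      -- bounds of the coefficients
      have m_pp := mono4 hp1 hp1
      have m_qq := mono4 hq1 hq1
      have m_xx := mono4 hx1 hx1
      have m_yy := mono4 hy1 hy1
      have m_pq := mono4 hp1 hq1
      have m_px := mono4 hp1 hx1
      have m_py := mono4 hp1 hy1
      have m_qx := mono4 hq1 hx1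
      have m_qy := mono4 hq1 hy1
      have m_xy := mono4 hx1 hy1
      rw [abs_le] at m_pp m_qq m_xx m_yy m_pq m_px m_py m_qx m_qy m_xy
      have hN4 : 1 ≤ N ^ 4 := one_le_pow₀ hN1
      have b0 : |M0| ≤ 9 * N ^ 4 := by
        rw [abs_le, hM0]
        constructor <;> linarith
      have b1 : |M1| ≤ 40 * N ^ 4 := by
        rw [abs_le, hM1]
        constructor <;> linarith
      have b2 : |M2| ≤ 40 * N ^ 4 := by
        rw [abs_le, hM2]
        constructor <;> linarith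
      have bs : 1 + |M0| + |M1| + |M2| ≤ 100 * N ^ 4 := by linarith
      have bp : (1 + |M0| + |M1| + |M2|) ^ τ ≤ 100 ^ τ * N ^ (4 * τ) := by
        rw [pow_mul, ← mul_pow]
        exact pow_le_pow_left₀ (by positivity) bs τ
      -- the product
      have hprod : ((p : ℝ) * ω₁ + q * ω₂ - z) * ((p : ℝ) * ω₁ + q * ω₂ + z) *
          (((p : ℝ) * ω₁ - q * ω₂ - z) * ((p : ℝ) * ω₁ - q * ω₂ + z)) =
          a ^ 2 * (M0 + M1 * (l 0 / l 1) ^ 2 + M2 * ((l 0 / l 1) ^ 2) ^ 2) := by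
        have e1 : ((p : ℝ) * ω₁ + q * ω₂ - z) * ((p : ℝ) * ω₁ + q * ω₂ + z) *
          (((p : ℝ) * ω₁ - q * ω₂ - z) * ((p : ℝ) * ω₁ - q * ω₂ + z)) =
          ((p : ℝ) ^ 2 * ω₁ ^ 2 + (q : ℝ) ^ 2 * ω₂ ^ 2 - z ^ 2) ^ 2 -
            4 * ((p : ℝ) ^ 2 * ω₁ ^ 2) * ((q : ℝ) ^ 2 * ω₂ ^ 2) := by ring
        rw [e1, s1, s2, hz2, hM0, hM1, hM2, hs]
        ring
      have hzN : z ≤ ω₁ * N := by
        refine le_of_sq_le_sq ?_ (by positivity)
        rw [hz2, mul_pow, s1]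
        have e1 : (x : ℝ) ^ 2 ≤ N ^ 2 := by
          rw [← sq_abs (x : ℝ)]; exact pow_le_pow_left₀ (abs_nonneg _) hx1 2
        have e2 : (y : ℝ) ^ 2 ≤ N ^ 2 := by
          rw [← sq_abs (y : ℝ)]; exact pow_le_pow_left₀ (abs_nonneg _) hy1 2
        have e3 := mul_le_mul_of_nonneg_left e1 ha0.le
        have e4 := mul_le_mul_of_nonneg_left e2 hb0.le
        linarith
      have hpN : |(p : ℝ) * ω₁| ≤ ω₁ * N := by
        rw [abs_mul, abs_of_nonneg n1, mul_comm]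
        exact mul_le_mul_of_nonneg_left hp1 n1
      have hqN : |(q : ℝ) * ω₂| ≤ ω₂ * N := by
        rw [abs_mul, abs_of_nonneg n2, mul_comm]
        exact mul_le_mul_of_nonneg_left hq1 n2
      have f2 : |(p : ℝ) * ω₁ + q * ω₂ + z| ≤ D * N := by
        rw [abs_le] at hpN hqN ⊢
        constructor <;> rw [hD] <;> linarith
      have f3 : |(p : ℝ) * ω₁ - q * ω₂ - z| ≤ D * N := by
        rw [abs_le] at hpN hqN ⊢
        constructor <;> rw [hD] <;> linarith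
      have f4 : |(p : ℝ) * ω₁ - q * ω₂ + z| ≤ D * N := by
        rw [abs_le] at hpN hqN ⊢
        constructor <;> rw [hD] <;> linarith
      set S : ℝ := |(p : ℝ) * ω₁ + q * ω₂ - z| with hS
      have hS0 : 0 ≤ S := abs_nonneg _
      have hup : a ^ 2 * |M0 + M1 * (l 0 / l 1) ^ 2 + M2 * ((l 0 / l 1) ^ 2) ^ 2| ≤
          S * (D * N) ^ 3 := by
        have e1 : a ^ 2 * |M0 + M1 * (l 0 / l 1) ^ 2 + M2 * ((l 0 / l 1) ^ 2) ^ 2| =
            S * |(p : ℝ) * ω₁ + q * ω₂ + z| * (|(p : ℝ) * ω₁ - q * ω₂ - z| *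
              |(p : ℝ) * ω₁ - q * ω₂ + z|) := by
          have e0 : |((p : ℝ) * ω₁ + q * ω₂ - z) * ((p : ℝ) * ω₁ + q * ω₂ + z) *
              (((p : ℝ) * ω₁ - q * ω₂ - z) * ((p : ℝ) * ω₁ - q * ω₂ + z))| =
              S * |(p : ℝ) * ω₁ + q * ω₂ + z| * (|(p : ℝ) * ω₁ - q * ω₂ - z| *
              |(p : ℝ) * ω₁ - q * ω₂ + z|) := by
            rw [abs_mul, abs_mul, abs_mul]
          rw [← e0, hprod, abs_mul, abs_of_pos (pow_pos ha0 2)]
        rw [e1]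
        have e2 : S * |(p : ℝ) * ω₁ + q * ω₂ + z| ≤ S * (D * N) :=
          mul_le_mul_of_nonneg_left f2 hS0
        have e3 : |(p : ℝ) * ω₁ - q * ω₂ - z| * |(p : ℝ) * ω₁ - q * ω₂ + z| ≤ (D * N) * (D * N) :=
          mul_le_mul f3 f4 (abs_nonneg _) (by positivity)
        calc S * |(p : ℝ) * ω₁ + q * ω₂ + z| * (|(p : ℝ) * ω₁ - q * ω₂ - z| *
              |(p : ℝ) * ω₁ - q * ω₂ + z|) ≤ S * (D * N) * ((D * N) * (D * N)) :=
              mul_le_mul e2 e3 (by positivity) (by positivity)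
          _ = S * (D * N) ^ 3 := by ring
      have hlow : c / (100 ^ τ * N ^ (4 * τ)) ≤
          |M0 + M1 * (l 0 / l 1) ^ 2 + M2 * ((l 0 / l 1) ^ 2) ^ 2| :=
        (div_le_div_of_nonneg_left hc.le (by positivity) bp).trans hdd
      have hfin : c' / N ^ (4 * τ + 3) ≤ S := by
        have e1 : a ^ 2 * (c / (100 ^ τ * N ^ (4 * τ))) ≤ S * (D * N) ^ 3 :=
          (mul_le_mul_of_nonneg_left hlow (by positivity)).trans hup
        have e2 : c' / N ^ (4 * τ + 3) = a ^ 2 * (c / (100 ^ τ * N ^ (4 * τ))) / (D * N) ^ 3 := by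
          have : 0 < N := by linarith
          rw [hc', pow_add]
          field_simp
        rw [e2, div_le_iff₀ (by positivity)]
        exact e1
      refine le_trans ?_ hfin
      exact div_le_div_of_nonneg_right (min_le_left _ _) (by positivity)
  · rintro g (⟨h1, h2, h3, h4, h5⟩ | ⟨h1, h2, h3, h4, h5⟩)
    · rw [hsg, h1]
      have hp0 : (0 : ℝ) < (g.1.1 : ℝ) := by exact_mod_cast h2
      have e : frq l g.2 = (g.1.1 : ℝ) * ω₁ := by
        refine frq_eq l g.2 (by positivity) ?_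
        have e4 : ((g.2 0 : ℤ) : ℝ) ^ 2 = (g.1.1 : ℝ) ^ 2 := by
          rw [← sq_abs]; exact_mod_cast congrArg (fun t : ℤ => t ^ (2 : ℕ)) h4
        have e5 : ((g.2 1 : ℤ) : ℝ) ^ 2 = (g.1.1 : ℝ) ^ 2 := by
          rw [← sq_abs]; exact_mod_cast congrArg (fun t : ℤ => t ^ (2 : ℕ)) h5
        rw [e4, e5, mul_pow, s1]
        ring
      rw [e]
      simp
    · rw [hsg, h1]
      have hp0 : (0 : ℝ) < (g.1.2 : ℝ) := by exact_mod_cast h2
      have e : frq l g.2 = (g.1.2 : ℝ) * ω₂ := by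
        refine frq_eq l g.2 (by positivity) ?_
        have e4 : ((g.2 0 : ℤ) : ℝ) ^ 2 = (g.1.2 : ℝ) ^ 2 := by
          rw [← sq_abs]; exact_mod_cast congrArg (fun t : ℤ => t ^ (2 : ℕ)) h4
        have e5 : ((g.2 1 : ℤ) : ℝ) ^ 2 = (2 * (g.1.2 : ℝ)) ^ 2 := by
          rw [← sq_abs]; exact_mod_cast congrArg (fun t : ℤ => t ^ (2 : ℕ)) h5
        rw [e4, e5, mul_pow _ ω₂, s2]
        ring
      rw [e]
      simp

end Pool.Agent.BOX.H4
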