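import Pool.Agent.BOX.StmtsG

/-!
# Row SEQ of squad BOX: the solution of the system
-/

namespace Pool.Agent.BOX.H4

open Set Filter Topology MeasureTheory

lemma ev_sym {P Q : Type} [AddCommGroup P] [AddCommGroup Q] (θ : P →+ ℝ) (F : P × Q → ℂ)
    (e : Q ≃+ Q) (s : Q → ℝ) (h : ∀ p k, F (p, e k) = (s k : ℂ) * F (p, k)) (t : ℝ) (k : Q) :
    ev θ F t (e k) = (s k : ℂ) * ev θ F t k := by
  unfold ev
  rw [← tsum_mul_left]
  refine tsum_congr fun p => ?_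
  rw [h, mul_assoc]

lemma cur_sym {P Q : Type} [AddCommGroup P] [AddCommGroup Q] (θ : P →+ ℝ) (W : ℕ → P × Q → ℂ)
    (A : ℝ → ℝ) (K : ℕ) (e : Q ≃+ Q) (s : Q → ℝ)
    (h : ∀ j ≤ K, ∀ p k, W j (p, e k) = (s k : ℂ) * W j (p, k)) (t : ℝ) (k : Q) :
    cur θ W A K (e k) t = (s k : ℂ) * cur θ W A K k t := by
  unfold cur
  rw [Finset.mul_sum]
  refine Finset.sum_congr rfl fun j hj => ?_
  rw [ev_sym θ (W j) e s (h j (by rw [Finset.mem_range] at hj; omega)) t k]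
  ring

lemma coef_nonneg {x y : ℝ} {u : ℂ} {t m : ℝ} (ht : 0 < t) (h : ‖u‖ ≤ x * t ^ m) (hy : y = x) :
    0 ≤ y := by
  have h1 : 0 < t ^ m := Real.rpow_pos_of_pos ht m
  have h2 : 0 ≤ x * t ^ m := (norm_nonneg _).trans h
  rw [hy]
  exact nonneg_of_mul_nonneg_left h2 h1

/-- SEQ. -/
theorem seq (_evd : EvdStmt) (hrec : RecStmt) (amp : AmpStmt) (rsa : RsaStmt) (rsb : RsbStmt)
    (fix : FixStmt) : SeqStmt := by
  intro P Q _ _ θ om w R Good W0 ν hfr hw hgood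
  set N0 : ℝ := ∑' g : P × Q, ‖W0 g‖ * w g.2 with hN0
  set q : ℝ := Real.sqrt (1 / (2 * ν)) with hq
  obtain ⟨K0, hK0⟩ := exists_nat_gt (12 * (q * N0 + 3) ^ 2 + 1 / 2)
  set K : ℕ := K0 + 2 with hK
  have hK2 : (2 : ℝ) ≤ (K : ℝ) := by rw [hK]; push_cast; linarith [K0.cast_nonneg (α := ℝ)]
  have hKK : 12 * (q * N0 + 3) ^ 2 + 1 / 2 < (K : ℝ) := by rw [hK]; push_cast; linarith
  obtain ⟨W, β, hW0, hβ, hWg, hEqn⟩ := hrec P Q θ om R Good W0 ν hfr K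
  have hsm : ∀ j ≤ K, Sm (fun g => (1 + |θ g.1|) * w g.2) (W j) := fun j hj => hgood _ (hWg j hj)
  have hβ0 : 0 < β 1 := by rw [hβ]; exact hfr.pos
  have hK1 : 1 ≤ K := by omega
  obtain ⟨t1, A, hA⟩ := amp K β hK1 hβ0
  have hder := rsa P Q θ om w K W β A t1 hw hK1 hsm hEqn hA
  obtain ⟨t2, b, c, C, ht12, hb, hc, hbs, hcur, hrem, hcont, hcur0⟩ :=
    rsb P Q θ w K W β A t1 hw hK1 hsm hβ0 hA
  have ht1 : 1 ≤ t1 := hA.1
  have ht2 : 1 ≤ t2 := ht1.trans ht12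
  have hN0' : 0 ≤ N0 := tsum_nonneg fun g => mul_nonneg (norm_nonneg _) (zero_le_one.trans (hw.1 _))
  have hq0 : 0 ≤ q := Real.sqrt_nonneg _
  have hb0 : ∀ k, 0 ≤ b k := fun k =>
    coef_nonneg (by linarith : (0 : ℝ) < t2 + 1) (hcur k (t2 + 1) (by linarith)) rfl
  have hbw : 0 ≤ ∑' k, b k * w k :=
    tsum_nonneg fun k => mul_nonneg (hb0 k) (zero_le_one.trans (hw.1 _))
  have hbs' : ∑' k, b k * w k ≤ q * N0 + 1 := by
    have h := hbs
    rw [hβ, hW0] at h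
    exact h
  have hM : 12 * ((∑' k, b k * w k) + 1) ^ 2 < (K : ℝ) - 1 / 2 := by
    have h1 : ((∑' k, b k * w k) + 1) ^ 2 ≤ (q * N0 + 3) ^ 2 :=
      pow_le_pow_left₀ (by linarith) (by linarith) 2
    linarith
  obtain ⟨T, z, d, hT, hd, hz, hode, hsym⟩ :=
    fix Q w om (fun k t => cur θ W A K k t) (fun k t => rem θ W β A K k t) b c t2
      ((K : ℝ) - 1 / 2) hw ht2 hb hc hM hcur
      (fun k t ht => by
        have h := hrem k t ht
        have e : (K : ℝ) - 1 / 2 + 2 = (K : ℝ) + 3 / 2 := by ring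
        rw [e]
        exact h)
      hcont
      (fun k t ht => hder k t (lt_of_le_of_lt ht12 ht))
  have hT1 : 1 ≤ T := ht2.trans hT
  have hd0 : ∀ k, 0 ≤ d k := fun k =>
    coef_nonneg (by linarith : (0 : ℝ) < T + 1) (hz k (T + 1) (by linarith)) rfl
  have hdw : ∀ k, d k ≤ ∑' k, d k * w k := fun k => by
    refine (le_mul_of_one_le_right (hd0 k) (hw.1 k)).trans ?_
    exact hd.le_tsum k fun j _ => mul_nonneg (hd0 j) (zero_le_one.trans (hw.1 _))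
  refine ⟨T, z, fun k => b k + d k, A, (∑' k, d k * w k) + C, hT1, ?_, ?_, hode, ?_, ?_, ?_, ?_⟩
  · refine (hb.add hd).congr fun k => ?_
    ring
  · intro k t ht
    have ht0 : 1 ≤ t := hT1.trans (le_of_lt ht)
    have h1 := hz k t ht
    have h2 := hcur k t (lt_of_le_of_lt hT ht)
    have h3 : t ^ (-((K : ℝ) - 1 / 2)) ≤ t ^ (-(1 / 2) : ℝ) :=
      Real.rpow_le_rpow_of_exponent_le ht0 (by linarith)
    have h4 : ‖z k t‖ ≤ ‖z k t - cur θ W A K k t‖ + ‖cur θ W A K k t‖ := by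
      have := norm_add_le (z k t - cur θ W A K k t) (cur θ W A K k t)
      rwa [sub_add_cancel] at this
    have h5 := mul_le_mul_of_nonneg_left h3 (hd0 k)
    calc ‖z k t‖ ≤ ‖z k t - cur θ W A K k t‖ + ‖cur θ W A K k t‖ := h4
      _ ≤ d k * t ^ (-((K : ℝ) - 1 / 2)) + b k * t ^ (-(1 / 2) : ℝ) := add_le_add h1 h2
      _ ≤ (b k + d k) * t ^ (-(1 / 2) : ℝ) := by linarith
  · intro t ht
    exact (hA.2.1 t (lt_of_le_of_lt (ht12.trans hT) ht)).1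
  · have h := hA.2.2
    rw [hβ] at h
    exact h
  · intro k t ht
    have ht0 : 1 ≤ t := hT1.trans (le_of_lt ht)
    have htp : 0 < t ^ (-(3 / 2) : ℝ) := Real.rpow_pos_of_pos (by linarith) _
    have h1 := hz k t ht
    have h2 := hcur0 k t (lt_of_le_of_lt hT ht)
    rw [hW0] at h2
    have h3 : t ^ (-((K : ℝ) - 1 / 2)) ≤ t ^ (-(3 / 2) : ℝ) :=
      Real.rpow_le_rpow_of_exponent_le ht0 (by linarith)
    have h4 : ‖z k t - (A t : ℂ) * ev θ W0 t k‖ ≤ ‖z k t - cur θ W A K k t‖ +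
        ‖cur θ W A K k t - (A t : ℂ) * ev θ W0 t k‖ := norm_sub_le_norm_sub_add_norm_sub _ _ _
    have h5 := mul_le_mul_of_nonneg_left h3 (hd0 k)
    have h6 := mul_le_mul_of_nonneg_right (hdw k) htp.le
    calc ‖z k t - (A t : ℂ) * ev θ W0 t k‖ ≤ ‖z k t - cur θ W A K k t‖ +
        ‖cur θ W A K k t - (A t : ℂ) * ev θ W0 t k‖ := h4
      _ ≤ d k * t ^ (-((K : ℝ) - 1 / 2)) + C * t ^ (-(3 / 2) : ℝ) := add_le_add h1 h2
      _ ≤ ((∑' k, d k * w k) + C) * t ^ (-(3 / 2) : ℝ) := by linarith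
  · intro e s hs2 hs3 hom hF k t ht
    exact hsym e s hs2 hs3 hom
      (fun k t _ => cur_sym θ W A K e s (fun j hj => hF (W j) (hWg j hj)) t k) k t ht

end Pool.Agent.BOX.H4
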